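import Pool.Agent.Helper85.MM.StmtsAP3

/-!
# Project MM, row AP3_LDC: derivatives of `log det` along a curve of matrices
-/

namespace Helper8.MM.LDC

open CM Matrix

variable {n : ℕ}

/-- Entrywise derivative of a curve of matrices. -/
def ED (G : ℝ → Mt n) (G1 : Mt n) (s : ℝ) : Prop :=
  ∀ i j, HasDerivAt (fun r => G r i j) (G1 i j) s

theorem ED.mul {A B : ℝ → Mt n} {A1 B1 : Mt n} {s : ℝ} (hA : ED A A1 s) (hB : ED B B1 s) :
    ED (fun r => A r * B r) (A1 * B s + A s * B1) s := by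
  intro i j
  have h : HasDerivAt (fun r => ∑ k, A r i k * B r k j)
      (∑ k, (A1 i k * B s k j + A s i k * B1 k j)) s :=
    HasDerivAt.fun_sum fun k _ => (hA i k).mul (hB k j)
  have e : (A1 * B s + A s * B1) i j = ∑ k, (A1 i k * B s k j + A s i k * B1 k j) := by
    rw [Matrix.add_apply, Matrix.mul_apply, Matrix.mul_apply, Finset.sum_add_distrib]
  rw [e]
  exact h

theorem ED.trace {A : ℝ → Mt n} {A1 : Mt n} {s : ℝ} (hA : ED A A1 s) :
    HasDerivAt (fun r => (A r).trace) A1.trace s :=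
  HasDerivAt.fun_sum fun k _ => hA k k

/-- Jacobi's formula. -/
theorem ED.det {G : ℝ → Mt n} {G1 : Mt n} {s : ℝ} (hG : ED G G1 s) :
    HasDerivAt (fun r => (G r).det) ((G s).adjugate * G1).trace s := by
  have h1 : HasDerivAt (fun r => ∑ σ : Equiv.Perm (Fin n),
      ((Equiv.Perm.sign σ : ℤ) : ℝ) * ∏ i, G r (σ i) i)
      (∑ σ : Equiv.Perm (Fin n), ((Equiv.Perm.sign σ : ℤ) : ℝ) *
        ∑ i, (∏ j ∈ Finset.univ.erase i, G s (σ j) j) * G1 (σ i) i) s := by
    refine HasDerivAt.fun_sum fun σ _ => ?_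
    have h2 := HasDerivAt.fun_finsetProd (u := Finset.univ)
      (f := fun i r => G r (σ i) i) (f' := fun i => G1 (σ i) i) (x := s)
      (fun i _ => hG (σ i) i)
    simp only [smul_eq_mul] at h2
    exact h2.const_mul _
  have e1 : (fun r => (G r).det) = fun r => ∑ σ : Equiv.Perm (Fin n),
      ((Equiv.Perm.sign σ : ℤ) : ℝ) * ∏ i, G r (σ i) i := by
    funext r
    rw [Matrix.det_apply']
  have e2 : ((G s).adjugate * G1).trace = ∑ σ : Equiv.Perm (Fin n),
      ((Equiv.Perm.sign σ : ℤ) : ℝ) *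
        ∑ i, (∏ j ∈ Finset.univ.erase i, G s (σ j) j) * G1 (σ i) i := by
    have e3 : ((G s).adjugate * G1).trace = ∑ i, ((G s).updateCol i (fun k => G1 k i)).det := by
      rw [Matrix.trace]
      refine Finset.sum_congr rfl fun i _ => ?_
      rw [← Matrix.cramer_apply, Matrix.cramer_eq_adjugate_mulVec]
      rfl
    rw [e3]
    simp_rw [Finset.mul_sum]
    rw [Finset.sum_comm]
    refine Finset.sum_congr rfl fun i _ => ?_
    rw [Matrix.det_apply']
    refine Finset.sum_congr rfl fun σ _ => ?_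
    congr 1
    rw [← Finset.prod_erase_mul _ _ (Finset.mem_univ i)]
    congr 1
    · refine Finset.prod_congr rfl fun j hj => ?_
      rw [Matrix.updateCol_ne (Finset.ne_of_mem_erase hj)]
    · rw [Matrix.updateCol_self]
  rw [e1, e2]
  exact h1

theorem ED.inv {G : ℝ → Mt n} {G1 : Mt n} {s : ℝ} (hG : ED G G1 s)
    (hd : ∀ r, 0 < (G r).det) :
    ED (fun r => (G r)⁻¹) (-((G s)⁻¹ * G1 * (G s)⁻¹)) s := by
  -- entries are differentiable
  have hdiff : ∀ i j, ∃ d : ℝ, HasDerivAt (fun r => (G r)⁻¹ i j) d s := by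
    intro i j
    have h1 : ED (fun r => (G r).updateRow j (Pi.single i 1))
        (Matrix.of fun a b => if a = j then 0 else G1 a b) s := by
      intro a b
      by_cases h : a = j
      · subst h
        simp only [Matrix.updateRow_self, Matrix.of_apply, if_true]
        exact hasDerivAt_const _ _
      · simp only [Matrix.updateRow_ne h, Matrix.of_apply, if_neg h]
        exact hG a b
    have h2 := h1.det
    have h3 := (hG.det).inv (hd s).ne'
    have h4 := h3.mul h2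
    refine ⟨_, h4.congr_of_eventuallyEq (Filter.Eventually.of_forall fun r => ?_)⟩
    simp only [Pi.mul_apply, Pi.inv_apply]
    rw [Matrix.inv_def, Matrix.smul_apply, Matrix.adjugate_apply, smul_eq_mul,
      Ring.inverse_eq_inv']
  choose D hD using hdiff
  have hDE : ED (fun r => (G r)⁻¹) (Matrix.of D) s := hD
  have hu : ∀ r, IsUnit (G r).det := fun r => (hd r).ne'.isUnit
  have h5 := hG.mul hDE
  have h6 : G1 * (G s)⁻¹ + G s * Matrix.of D = 0 := by
    ext i j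
    have h7 := h5 i j
    have h8 : (fun r => (G r * (G r)⁻¹) i j) = fun _ => (1 : Mt n) i j := by
      funext r
      rw [Matrix.mul_nonsing_inv _ (hu r)]
    rw [h8] at h7
    exact h7.unique (hasDerivAt_const _ _)
  have h9 : Matrix.of D = -((G s)⁻¹ * G1 * (G s)⁻¹) := by
    have h10 : (G s)⁻¹ * (G1 * (G s)⁻¹ + G s * Matrix.of D) = 0 := by rw [h6, Matrix.mul_zero]
    rw [Matrix.mul_add, ← Matrix.mul_assoc, ← Matrix.mul_assoc,
      Matrix.nonsing_inv_mul _ (hu s), Matrix.one_mul] at h10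
    exact eq_neg_of_add_eq_zero_right h10
  rw [h9] at hDE
  exact hDE

theorem row : ST_LDC := by
  intro n g0 g1 g2 g3 h0 h1 h2 hd h00
  have H0 : ∀ s, ED g0 (g1 s) s := h0
  have H1 : ∀ s, ED g1 (g2 s) s := h1
  have H2 : ∀ s, ED g2 (g3 s) s := h2
  have hI : ∀ s, ED (fun r => (g0 r)⁻¹) (-((g0 s)⁻¹ * g1 s * (g0 s)⁻¹)) s :=
    fun s => (H0 s).inv hd
  have hP : ∀ s, ED (fun r => (g0 r)⁻¹ * g1 r)
      (-((g0 s)⁻¹ * g1 s * (g0 s)⁻¹) * g1 s + (g0 s)⁻¹ * g2 s) s :=
    fun s => (hI s).mul (H1 s)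
  have hQ : ∀ s, ED (fun r => (g0 r)⁻¹ * g2 r)
      (-((g0 s)⁻¹ * g1 s * (g0 s)⁻¹) * g2 s + (g0 s)⁻¹ * g3 s) s :=
    fun s => (hI s).mul (H2 s)
  refine ⟨fun s => ((g0 s)⁻¹ * g1 s).trace,
    fun s => (-((g0 s)⁻¹ * g1 s * (g0 s)⁻¹) * g1 s + (g0 s)⁻¹ * g2 s).trace,
    fun s => (-((g0 s)⁻¹ * g1 s * (g0 s)⁻¹) * g2 s + (g0 s)⁻¹ * g3 s).trace -
      ((-((g0 s)⁻¹ * g1 s * (g0 s)⁻¹) * g1 s + (g0 s)⁻¹ * g2 s) * ((g0 s)⁻¹ * g1 s) +
        ((g0 s)⁻¹ * g1 s) * (-((g0 s)⁻¹ * g1 s * (g0 s)⁻¹) * g1 s + (g0 s)⁻¹ * g2 s)).trace,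
    ?_, ?_, ?_, ?_, ?_, ?_⟩
  · intro s
    have h3 := ((H0 s).det).log (hd s).ne'
    have e : ((g0 s)⁻¹ * g1 s).trace = ((g0 s).adjugate * g1 s).trace / (g0 s).det := by
      rw [Matrix.inv_def, Ring.inverse_eq_inv', Matrix.smul_mul, Matrix.trace_smul, smul_eq_mul]
      ring
    rw [← e] at h3
    exact h3
  · intro s
    exact (hP s).trace
  · intro s
    have h4 := ((hQ s).trace).sub (((hP s).mul (hP s)).trace)
    refine h4.congr_of_eventuallyEq (Filter.Eventually.of_forall fun r => ?_)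
    simp only [Pi.sub_apply]
    rw [Matrix.trace_add, Matrix.neg_mul, Matrix.trace_neg, Matrix.mul_assoc ((g0 r)⁻¹ * g1 r)]
    ring
  · simp only [h00, inv_one, Matrix.one_mul]
  · simp only [h00, inv_one, Matrix.one_mul, Matrix.mul_one, Matrix.trace_add, Matrix.neg_mul,
      Matrix.trace_neg]
    ring
  · simp only [h00, inv_one, Matrix.one_mul, Matrix.mul_one, Matrix.trace_add, Matrix.neg_mul,
      Matrix.trace_neg, Matrix.mul_add, Matrix.add_mul, Matrix.mul_neg]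
    rw [Matrix.trace_mul_comm (g2 0) (g1 0), ← Matrix.mul_assoc]
    ring

end Helper8.MM.LDC
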